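import Mathlib

/-!
Symmetric families of polynomial ideals contain a Vandermonde product, and the ideal of the points
with few distinct coordinates is generated by Vandermonde products.
-/

set_option autoImplicit false

namespace Pool.Agent.H440Z.Vand

open MvPolynomial Finset

/-- Vandermonde product -/
noncomputable def V {A : Type} [CommRing A] {n : ℕ} (u : Fin n → A) : A :=
  ∏ i : Fin n, ∏ j ∈ Ioi i, (u j - u i)

lemma V_cons {A : Type} [CommRing A] {n : ℕ} (y : A) (u : Fin n → A) :
    V (Fin.cons y u : Fin (n + 1) → A) = (∏ k, (u k - y)) * V u := by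
  unfold V
  rw [Fin.prod_univ_succ, Fin.prod_Ioi_zero]
  congr 1
  refine Finset.prod_congr rfl fun i _ => ?_
  rw [Fin.prod_Ioi_succ]
  simp

lemma map_V {A B : Type} [CommRing A] [CommRing B] [Algebra ℂ A] [Algebra ℂ B] (φ : A →ₐ[ℂ] B)
    {n : ℕ} (u : Fin n → A) : φ (V u) = V (fun i => φ (u i)) := by
  unfold V
  simp only [map_prod, map_sub]

/-- the ideal generated by the Vandermonde products of `n + 1` variables -/
noncomputable def J (σ : Type) (n : ℕ) : Ideal (MvPolynomial σ ℂ) :=
  Ideal.span {P | ∃ e : Fin (n + 1) → σ, Function.Injective e ∧ P = V (fun i => X (e i))}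

/-- vanishing on points with at most `n` distinct coordinates -/
def Z (σ : Type) (n : ℕ) (P : MvPolynomial σ ℂ) : Prop :=
  ∀ g : σ → Fin n, rename g P = 0

lemma J_rename {σ τ : Type} {n : ℕ} (f : σ → τ) (hf : Function.Injective f)
    {P : MvPolynomial σ ℂ} (hP : P ∈ J σ n) : rename f P ∈ J τ n := by
  have h : J σ n ≤ (J τ n).comap (rename f : MvPolynomial σ ℂ →ₐ[ℂ] MvPolynomial τ ℂ) := by
    unfold J
    rw [Ideal.span_le]
    rintro _ ⟨e, he, rfl⟩
    refine Ideal.subset_span ⟨f ∘ e, hf.comp he, ?_⟩
    rw [map_V]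
    simp
  exact h hP

lemma Z_rename {σ τ : Type} {n : ℕ} (f : σ → τ) {P : MvPolynomial σ ℂ} (hP : Z σ n P) :
    Z τ n (rename f P) := by
  intro g
  rw [rename_rename]
  exact hP _

lemma Z_sub {σ : Type} {n : ℕ} {P Q : MvPolynomial σ ℂ} (hP : Z σ n P) (hQ : Z σ n Q) :
    Z σ n (P - Q) := by
  intro g
  rw [map_sub, hP g, hQ g, sub_zero]

lemma dvd_sub_rename {σ : Type} (f : σ → σ) (a : σ) (hf : ∀ i, i ≠ a → f i = i)
    (h : MvPolynomial σ ℂ) : (X a - X (f a)) ∣ h - rename f h := by
  induction h using MvPolynomial.induction_on with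
  | C c => simp
  | add p q hp hq =>
    have : p + q - rename f (p + q) = (p - rename f p) + (q - rename f q) := by
      rw [map_add]; ring
    rw [this]
    exact dvd_add hp hq
  | mul_X p i hp =>
    have : p * X i - rename f (p * X i) =
        (p - rename f p) * X i + rename f p * (X i - X (f i)) := by
      rw [map_mul, rename_X]; ring
    rw [this]
    refine dvd_add (hp.mul_right _) (Dvd.dvd.mul_left ?_ _)
    by_cases hi : i = a
    · rw [hi]
    · rw [hf i hi, sub_self]; exact dvd_zero _

lemma opt_rename {τ τ' : Type} (g : τ → τ') (h : MvPolynomial (Option τ) ℂ) :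
    optionEquivLeft ℂ τ' (rename (Option.map g) h) =
      Polynomial.map (rename g : MvPolynomial τ ℂ →ₐ[ℂ] MvPolynomial τ' ℂ).toRingHom
        (optionEquivLeft ℂ τ h) := by
  induction h using MvPolynomial.induction_on with
  | C c => simp [optionEquivLeft_C]
  | add p q hp hq => simp only [map_add, hp, hq, Polynomial.map_add]
  | mul_X p i hp =>
    simp only [map_mul, hp, Polynomial.map_mul, rename_X]
    congr 1
    cases i with
    | none => simp [optionEquivLeft_X_none]
    | some i => simp [optionEquivLeft_X_some]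

lemma opt_symm_C {τ : Type} (c : MvPolynomial τ ℂ) :
    (optionEquivLeft ℂ τ).symm (Polynomial.C c) = rename some c := by
  apply (optionEquivLeft ℂ τ).injective
  rw [AlgEquiv.apply_symm_apply]
  induction c using MvPolynomial.induction_on with
  | C c => simp [optionEquivLeft_C]
  | add p q hp hq => simp only [map_add, hp, hq]
  | mul_X p i hp => simp only [map_mul, hp, rename_X, optionEquivLeft_X_some]

lemma prod_mul_mem {τ : Type} [Fintype τ] {n : ℕ} {c : MvPolynomial τ ℂ} (hc : c ∈ J τ n) :
    (∏ i : τ, (X (some i) - X none : MvPolynomial (Option τ) ℂ)) * rename some c ∈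
      J (Option τ) (n + 1) := by
  classical
  unfold J at hc
  induction hc using Submodule.span_induction with
  | mem P hP =>
    obtain ⟨e, he, rfl⟩ := hP
    have h1 : (∏ k : Fin (n + 1), (X (some (e k)) - X none : MvPolynomial (Option τ) ℂ)) ∣
        ∏ i : τ, (X (some i) - X none : MvPolynomial (Option τ) ℂ) := by
      rw [← Finset.prod_image (s := Finset.univ) (g := e)
        (f := fun i => (X (some i) - X none : MvPolynomial (Option τ) ℂ))
        (fun a _ b _ h => he h)]
      exact Finset.prod_dvd_prod_of_subset _ _ _ (Finset.subset_univ _)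
    obtain ⟨w, hw⟩ := h1
    rw [hw, mul_right_comm]
    refine Ideal.mul_mem_right _ _ (Ideal.subset_span
      ⟨Fin.cons none (fun k => some (e k)), ?_, ?_⟩)
    · rw [Fin.cons_injective_iff]
      refine ⟨?_, fun a b h => he (Option.some_injective _ h)⟩
      rintro ⟨k, hk⟩
      simp at hk
    · rw [map_V]
      simp only [rename_X]
      rw [← V_cons (X none) (fun k => X (some (e k)))]
      congr 1
      funext i
      refine Fin.cases ?_ (fun j => ?_) i <;> simp
  | zero => simp
  | add p q _ _ hp hq => rw [map_add, mul_add]; exact Ideal.add_mem _ hp hq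
  | smul a p _ hp =>
    rw [smul_eq_mul, map_mul, mul_left_comm]
    exact Ideal.mul_mem_left _ _ hp

lemma step {τ : Type} [Fintype τ] {n : ℕ}
    (h1 : ∀ j : τ, ∀ P, Z (Option {i // i ≠ j}) (n + 1) P → P ∈ J (Option {i // i ≠ j}) (n + 1))
    (h2 : ∀ P, Z τ n P → P ∈ J τ n) (P : MvPolynomial (Option τ) ℂ)
    (hP : Z (Option τ) (n + 1) P) : P ∈ J (Option τ) (n + 1) := by
  classical
  have key : ∀ A : Finset τ, ∃ h : MvPolynomial (Option τ) ℂ,
      P - (∏ i ∈ A, (X (some i) - X none)) * h ∈ J (Option τ) (n + 1) ∧
      Z (Option τ) (n + 1) ((∏ i ∈ A, (X (some i) - X none)) * h) := by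
    intro A
    induction A using Finset.induction_on with
    | empty => exact ⟨P, by simp, by simpa using hP⟩
    | insert j A hj ih =>
      obtain ⟨h, ha, hb⟩ := ih
      set f : Option τ → Option τ := fun o => if o = some j then none else o with hf
      set π : Option τ → Option {i // i ≠ j} := fun o =>
        o.bind fun i => if hi : i ≠ j then some ⟨i, hi⟩ else none with hπ
      have hfπ : f = Option.map Subtype.val ∘ π := by
        funext o
        cases o with
        | none => simp [hf, hπ]
        | some i =>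
          by_cases hi : i = j
          · simp [hf, hπ, hi]
          · simp [hf, hπ, hi]
      set W : MvPolynomial (Option τ) ℂ := ∏ i ∈ A, (X (some i) - X none) with hW
      have hWf : rename f W = W := by
        rw [hW, map_prod]
        refine Finset.prod_congr rfl fun i hi => ?_
        have : i ≠ j := fun e => hj (e ▸ hi)
        simp [hf, this]
      have hJ : rename f (W * h) ∈ J (Option τ) (n + 1) := by
        rw [hfπ, ← rename_rename]
        exact J_rename _ (Option.map_injective Subtype.val_injective) (h1 j _ (Z_rename π hb))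
      obtain ⟨h', hh'⟩ := dvd_sub_rename f (some j) (fun i hi => by simp [hf, hi]) h
      have hfj : f (some j) = none := by simp [hf]
      rw [hfj] at hh'
      have e1 : (∏ i ∈ insert j A, (X (some i) - X none : MvPolynomial (Option τ) ℂ)) * h' =
          W * h - rename f (W * h) := by
        rw [Finset.prod_insert hj, ← hW, map_mul, hWf, ← mul_sub, hh']
        ring
      refine ⟨h', ?_, ?_⟩
      · rw [e1]
        have : P - (W * h - rename f (W * h)) = (P - W * h) + rename f (W * h) := by ring
        rw [this]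
        exact Ideal.add_mem _ ha hJ
      · rw [e1]
        exact Z_sub hb (Z_rename f hb)
  obtain ⟨h, ha, hb⟩ := key Finset.univ
  suffices hs : (∏ i : τ, (X (some i) - X none : MvPolynomial (Option τ) ℂ)) * h ∈
      J (Option τ) (n + 1) by
    have := Ideal.add_mem _ ha hs
    rwa [sub_add_cancel] at this
  have hc : ∀ k, (optionEquivLeft ℂ τ h).coeff k ∈ J τ n := by
    intro k
    apply h2
    intro g
    have h3 := hb (fun o => (finSuccEquiv n).symm (Option.map g o))
    have h4 : rename (Option.map g)
        ((∏ i : τ, (X (some i) - X none : MvPolynomial (Option τ) ℂ)) * h) = 0 := by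
      apply rename_injective _ (finSuccEquiv n).symm.injective
      rw [rename_rename, map_zero]
      exact h3
    rw [map_mul] at h4
    have h5 : rename (Option.map g)
        (∏ i : τ, (X (some i) - X none : MvPolynomial (Option τ) ℂ)) ≠ 0 := by
      rw [map_prod, Finset.prod_ne_zero_iff]
      intro i _ h6
      rw [map_sub, rename_X, rename_X, sub_eq_zero] at h6
      have := X_injective h6
      simp at this
    have h6 := (mul_eq_zero.1 h4).resolve_left h5
    have h7 := opt_rename g h
    rw [h6, map_zero] at h7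
    have h8 := congrArg (fun p => Polynomial.coeff p k) h7
    simp only [Polynomial.coeff_zero, Polynomial.coeff_map] at h8
    exact h8.symm
  have e2 : h = ∑ k ∈ (optionEquivLeft ℂ τ h).support,
      rename some ((optionEquivLeft ℂ τ h).coeff k) * X none ^ k := by
    conv_lhs => rw [← (optionEquivLeft ℂ τ).symm_apply_apply h,
      ← Polynomial.sum_C_mul_X_pow_eq (optionEquivLeft ℂ τ h)]
    rw [Polynomial.sum_def, map_sum]
    refine Finset.sum_congr rfl fun k _ => ?_
    rw [map_mul, map_pow, opt_symm_C, optionEquivLeft_symm_X]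
  rw [e2, Finset.mul_sum]
  refine Ideal.sum_mem _ fun k _ => ?_
  rw [← mul_assoc]
  exact Ideal.mul_mem_right _ _ (prod_mul_mem (hc k))

/-- the ideal of points with few distinct coordinates -/
theorem lovasz (m : ℕ) : ∀ (σ : Type) [Fintype σ], Fintype.card σ = m →
    ∀ (n : ℕ) (P : MvPolynomial σ ℂ), Z σ n P → P ∈ J σ n := by
  induction m with
  | zero =>
    intro σ _ hσ n P hP
    have : IsEmpty σ := Fintype.card_eq_zero_iff.1 hσ
    have h := hP (fun i => isEmptyElim i)
    have : P = 0 := by
      apply rename_injective (fun i : σ => (isEmptyElim i : Fin n)) (fun i => isEmptyElim i)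
      rw [h, map_zero]
    rw [this]
    exact Ideal.zero_mem _
  | succ m ih =>
    intro σ _ hσ n P hP
    classical
    obtain ⟨e⟩ : Nonempty (σ ≃ Option (Fin m)) := by
      rw [← Fintype.card_eq]
      simp [hσ]
    cases n with
    | zero =>
      have : (1 : MvPolynomial σ ℂ) ∈ J σ 0 := by
        refine Ideal.subset_span ⟨fun _ => e.symm none, fun a b _ => by omega, ?_⟩
        simp [V]
      simpa using Ideal.mul_mem_left _ P this
    | succ n =>
      have h1 : rename e P ∈ J (Option (Fin m)) (n + 1) := by
        refine step (fun j Q hQ => ih _ ?_ _ Q hQ) (fun Q hQ => ih _ (by simp) _ Q hQ) _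
          (Z_rename e hP)
        have : 0 < m := j.pos
        simp [Fintype.card_subtype_compl]
        omega
      have h2 := J_rename e.symm e.symm.injective h1
      rwa [rename_rename, Equiv.symm_comp_self, rename_id_apply] at h2

/-- a family of ideals which is stable under injective renamings contains a Vandermonde product -/
theorem cramer (𝔟 : (d : ℕ) → Ideal (MvPolynomial (Fin d) ℂ))
    (hr : ∀ (d d' : ℕ) (f : Fin d → Fin d'), Function.Injective f → ∀ P ∈ 𝔟 d, rename f P ∈ 𝔟 d')
    {d : ℕ} {P : MvPolynomial (Fin d) ℂ} (hP : P ∈ 𝔟 d) (h0 : P ≠ 0) :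
    ∃ N : ℕ, V (fun i : Fin N => (X i : MvPolynomial (Fin N) ℂ)) ∈ 𝔟 N := by
  classical
  set D := P.totalDegree with hD
  set N := d * (D + 1) with hN
  refine ⟨N, ?_⟩
  set e : Fin d × Fin (D + 1) ≃ Fin N := finProdFinEquiv with he
  set u : Fin d → Fin (D + 1) → MvPolynomial (Fin N) ℂ := fun i j => X (e (i, j)) with hu
  have hlt : ∀ a ∈ P.support, ∀ i, a i < D + 1 := by
    intro a ha i
    have h1 := le_totalDegree ha
    have h2 : a i ≤ a.sum fun _ e => e := by
      by_cases hi : i ∈ a.support
      · exact Finset.single_le_sum (f := fun i => a i) (fun _ _ => Nat.zero_le _) hi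
      · rw [Finsupp.notMem_support_iff.1 hi]; exact Nat.zero_le _
    omega
  obtain ⟨b, hb⟩ : P.support.Nonempty := by
    rw [Finset.nonempty_iff_ne_empty]
    intro h
    exact h0 (support_eq_empty.1 h)
  set b' : Fin d → Fin (D + 1) := fun i => ⟨b i, hlt b hb i⟩ with hb'
  have hmem : ∑ c : Fin d → Fin (D + 1),
      (∏ i, (Matrix.vandermonde (u i)).adjugate (b' i) (c i)) *
        rename (fun i => e (i, c i)) P ∈ 𝔟 N := by
    refine Ideal.sum_mem _ fun c _ => Ideal.mul_mem_left _ _ (hr _ _ _ ?_ _ hP)
    intro i j h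
    exact congrArg Prod.fst (e.injective h)
  have hval : ∑ c : Fin d → Fin (D + 1),
      (∏ i, (Matrix.vandermonde (u i)).adjugate (b' i) (c i)) *
        rename (fun i => e (i, c i)) P = C (P.coeff b) * ∏ i, V (u i) := by
    have h1 : ∀ c : Fin d → Fin (D + 1), rename (fun i => e (i, c i)) P =
        ∑ a ∈ P.support, C (P.coeff a) * ∏ i, u i (c i) ^ a i := by
      intro c
      rw [rename_eq_aeval, aeval_def, eval₂_eq']
      rfl
    simp only [h1, Finset.mul_sum]
    rw [Finset.sum_comm, Finset.sum_eq_single b]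
    · have h2 : ∀ c : Fin d → Fin (D + 1),
          (∏ i, (Matrix.vandermonde (u i)).adjugate (b' i) (c i)) *
            (C (P.coeff b) * ∏ i, u i (c i) ^ b i) = C (P.coeff b) *
            ∏ i, ((Matrix.vandermonde (u i)).adjugate (b' i) (c i) *
              Matrix.vandermonde (u i) (c i) (b' i)) := by
        intro c
        rw [Finset.prod_mul_distrib, mul_left_comm]
        rfl
      simp only [h2]
      rw [← Finset.mul_sum]
      congr 1
      rw [← Fintype.piFinset_univ, ← Finset.prod_univ_sum (fun _ => Finset.univ)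
        (fun i c => (Matrix.vandermonde (u i)).adjugate (b' i) c *
          Matrix.vandermonde (u i) c (b' i))]
      refine Finset.prod_congr rfl fun i _ => ?_
      rw [← Matrix.mul_apply, Matrix.adjugate_mul, Matrix.smul_apply, Matrix.one_apply_eq,
        smul_eq_mul, mul_one, Matrix.det_vandermonde]
      rfl
    · intro a ha hab
      set a' : Fin d → Fin (D + 1) := fun i => ⟨a i, hlt a ha i⟩ with ha'
      have h2 : ∀ c : Fin d → Fin (D + 1),
          (∏ i, (Matrix.vandermonde (u i)).adjugate (b' i) (c i)) *
            (C (P.coeff a) * ∏ i, u i (c i) ^ a i) = C (P.coeff a) *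
            ∏ i, ((Matrix.vandermonde (u i)).adjugate (b' i) (c i) *
              Matrix.vandermonde (u i) (c i) (a' i)) := by
        intro c
        rw [Finset.prod_mul_distrib, mul_left_comm]
        rfl
      simp only [h2]
      rw [← Finset.mul_sum, ← Fintype.piFinset_univ, ← Finset.prod_univ_sum (fun _ => Finset.univ)
        (fun i c => (Matrix.vandermonde (u i)).adjugate (b' i) c *
          Matrix.vandermonde (u i) c (a' i))]
      obtain ⟨i, hi⟩ : ∃ i, a i ≠ b i := by
        by_contra hcon
        push Not at hcon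
        exact hab (Finsupp.ext hcon)
      rw [Finset.prod_eq_zero (Finset.mem_univ i), mul_zero]
      have hne : b' i ≠ a' i := fun h => hi (congrArg Fin.val h).symm
      rw [← Matrix.mul_apply, Matrix.adjugate_mul, Matrix.smul_apply, Matrix.one_apply_ne hne,
        smul_zero]
    · intro h
      exact absurd hb h
  rw [hval] at hmem
  have hcb : P.coeff b ≠ 0 := mem_support_iff.1 hb
  have hmem2 : ∏ i, V (u i) ∈ 𝔟 N := by
    have := Ideal.mul_mem_left _ (C (P.coeff b)⁻¹) hmem
    rwa [← mul_assoc, ← C_mul, inv_mul_cancel₀ hcb, C_1, one_mul] at this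
  suffices hd : ∏ i, V (u i) ∣ V (fun i : Fin N => (X i : MvPolynomial (Fin N) ℂ)) by
    obtain ⟨w, hw⟩ := hd
    rw [hw]
    exact Ideal.mul_mem_right _ _ hmem2
  set g : Fin N × Fin N → MvPolynomial (Fin N) ℂ := fun p => X p.2 - X p.1 with hg
  have e1 : V (fun i : Fin N => (X i : MvPolynomial (Fin N) ℂ)) =
      ∏ p ∈ (Finset.univ : Finset (Fin N × Fin N)).filter (fun p => p.1 < p.2), g p := by
    unfold V
    rw [Finset.prod_filter, Fintype.prod_prod_type]
    refine Finset.prod_congr rfl fun i _ => ?_
    rw [← Finset.prod_filter]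
    refine Finset.prod_congr ?_ fun _ _ => rfl
    ext j; simp
  set T : Finset (Fin d × Fin (D + 1) × Fin (D + 1)) :=
    Finset.univ.filter (fun p => p.2.1 < p.2.2) with hT
  set φ : Fin d × Fin (D + 1) × Fin (D + 1) → Fin N × Fin N :=
    fun p => (e (p.1, p.2.1), e (p.1, p.2.2)) with hφ
  have e2 : ∏ i, V (u i) = ∏ p ∈ T, g (φ p) := by
    unfold V
    rw [hT, Finset.prod_filter, Fintype.prod_prod_type]
    refine Finset.prod_congr rfl fun i _ => ?_
    rw [Fintype.prod_prod_type]
    refine Finset.prod_congr rfl fun j _ => ?_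
    rw [← Finset.prod_filter]
    refine Finset.prod_congr ?_ fun _ _ => rfl
    ext k; simp
  have hφi : Function.Injective φ := by
    rintro ⟨i, j, k⟩ ⟨i', j', k'⟩ h
    have h1 := e.injective (congrArg Prod.fst h)
    have h2 := e.injective (congrArg Prod.snd h)
    simp only [Prod.mk.injEq] at h1 h2
    rw [h1.1, h1.2, h2.2]
  rw [e1, e2, ← Finset.prod_image (s := T) (g := φ) (f := g) (fun a _ b _ h => hφi h)]
  refine Finset.prod_dvd_prod_of_subset _ _ _ ?_
  intro p hp
  obtain ⟨⟨i, j, k⟩, hq, rfl⟩ := Finset.mem_image.1 hp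
  rw [hT, Finset.mem_filter] at hq
  rw [Finset.mem_filter]
  refine ⟨Finset.mem_univ _, ?_⟩
  have h3 : (j : ℕ) < k := hq.2
  show ((e (i, j) : Fin N) : ℕ) < ((e (i, k) : Fin N) : ℕ)
  have h4 : ∀ k : Fin (D + 1), ((e (i, k) : Fin N) : ℕ) = k + (D + 1) * i := fun k => rfl
  rw [h4, h4]
  omega

end Pool.Agent.H440Z.Vand
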