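import Pool.Agent.H143Z.Acc.Defs
import Pool.Agent.H440Z.Vand.Poly

set_option autoImplicit false

namespace Pool.Agent.H440Z.Vand

open Pool.Agent.H143Z.Vir Pool.Agent.H143Z.Acc

/-- polynomials as Laurent polynomials -/
noncomputable def ph (d : ℕ) : MvPolynomial (Fin d) ℂ →ₐ[ℂ] FF d :=
  MvPolynomial.aeval fun i => mo (Pi.single i 1)

lemma ph_X {d : ℕ} (i : Fin d) : ph d (MvPolynomial.X i) = mo (Pi.single i 1) :=
  MvPolynomial.aeval_X _ _

lemma mo_nsmul {G : Type} [AddCommGroup G] (e : G) (k : ℕ) : mo (k • e) = mo e ^ k := by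
  induction k with
  | zero => simp [mo_zero]
  | succ k ih => rw [succ_nsmul, mo_add, ih, pow_succ]

lemma mo_sum {G ι : Type} [AddCommGroup G] (s : Finset ι) (f : ι → G) :
    mo (∑ i ∈ s, f i) = ∏ i ∈ s, mo (f i) := by
  classical
  induction s using Finset.induction_on with
  | empty => simp [mo_zero]
  | insert a s ha ih => rw [Finset.sum_insert ha, Finset.prod_insert ha, mo_add, ih]

lemma ph_prod {d : ℕ} (e : Fin d → ℕ) :
    ph d (∏ i, MvPolynomial.X i ^ e i) = mo (fun i => (e i : ℤ)) := by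
  rw [map_prod]
  simp only [map_pow, ph_X, ← mo_nsmul]
  rw [← mo_sum]
  congr 1
  funext j
  rw [Finset.sum_apply, Finset.sum_eq_single j]
  · simp
  · intro i _ hi
    simp [Pi.single_eq_of_ne hi.symm]
  · simp

lemma exists_ph {d : ℕ} (F : FF d) : ∃ (e : Fin d → ℕ) (P : MvPolynomial (Fin d) ℂ),
    ph d P = mo (fun i => (e i : ℤ)) * F := by
  induction F using ind with
  | h0 => exact ⟨0, 0, by simp⟩
  | hadd a b ha hb =>
    obtain ⟨e, P, hP⟩ := ha
    obtain ⟨e', P', hP'⟩ := hb
    refine ⟨e + e', (∏ i, MvPolynomial.X i ^ e' i) * P + (∏ i, MvPolynomial.X i ^ e i) * P', ?_⟩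
    have : (fun i => ((e + e') i : ℤ)) = (fun i => (e i : ℤ)) + fun i => (e' i : ℤ) := by
      funext i; simp
    rw [map_add, map_mul, map_mul, ph_prod, ph_prod, hP, hP', this, mo_add]
    ring
  | hs c a ha =>
    obtain ⟨e, P, hP⟩ := ha
    exact ⟨e, c • P, by rw [map_smul, hP, mul_smul_comm]⟩
  | h1 a =>
    refine ⟨fun i => (-a i).toNat, ∏ i, MvPolynomial.X i ^ (a i).toNat, ?_⟩
    rw [ph_prod, ← mo_add]
    congr 1
    funext i
    simp only [Pi.add_apply]
    omega

lemma mo_unit {G : Type} [AddCommGroup G] (e : G) : mo (-e) * mo e = 1 := by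
  rw [← mo_add, neg_add_cancel, mo_zero]

lemma ev_ph {d : ℕ} (w : Fin d → ℂˣ) (P : MvPolynomial (Fin d) ℂ) :
    ev w (ph d P) = MvPolynomial.eval (fun i => (w i : ℂ)) P := by
  induction P using MvPolynomial.induction_on with
  | C c =>
    rw [MvPolynomial.eval_C, ← MvPolynomial.algebraMap_eq, AlgHom.commutes, AlgHom.commutes]
    rfl
  | add p q hp hq => simp only [map_add, hp, hq]
  | mul_X p i hp => simp only [map_mul, hp, ph_X, ev_single, MvPolynomial.eval_X]

lemma perm_mul {n : ℕ} (τ : Equiv.Perm (Fin n)) (a b : FF n) :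
    perm τ (a * b) = perm τ a * perm τ b := by
  induction a using ind with
  | h0 => simp
  | hadd x y hx hy => simp only [add_mul, map_add, hx, hy]
  | hs c x hx => simp only [smul_mul_assoc, map_smul, hx]
  | h1 e =>
    induction b using ind with
    | h0 => simp
    | hadd x y hx hy => simp only [mul_add, map_add, hx, hy]
    | hs c x hx => simp only [mul_smul_comm, map_smul, hx]
    | h1 e' =>
      rw [← mo_add, perm_mo, perm_mo, perm_mo, ← mo_add]
      rfl

lemma perm_ph {n : ℕ} (τ : Equiv.Perm (Fin n)) (P : MvPolynomial (Fin n) ℂ) :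
    perm τ.symm (ph n P) = ph n (MvPolynomial.rename τ P) := by
  induction P using MvPolynomial.induction_on with
  | C c =>
    rw [MvPolynomial.rename_C, ← MvPolynomial.algebraMap_eq, AlgHom.commutes,
      Algebra.algebraMap_eq_smul_one, map_smul, ← mo_zero, perm_mo]
    rfl
  | add p q hp hq => simp only [map_add, hp, hq]
  | mul_X p i hp =>
    rw [map_mul, perm_mul, hp, map_mul, map_mul, MvPolynomial.rename_X, ph_X, ph_X, perm_mo]
    congr 2
    funext j
    by_cases h : j = τ i
    · subst h; simp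
    · have : τ.symm j ≠ i := fun e => h (by rw [← e]; simp)
      simp [Pi.single_eq_of_ne h, Pi.single_eq_of_ne this]

lemma inc_ph {n : ℕ} (P : MvPolynomial (Fin n) ℂ) :
    inc n (ph n P) = ph (n + 1) (MvPolynomial.rename Fin.succ P) := by
  induction P using MvPolynomial.induction_on with
  | C c =>
    rw [MvPolynomial.rename_C, ← MvPolynomial.algebraMap_eq, AlgHom.commutes, AlgHom.commutes,
      ← MvPolynomial.algebraMap_eq, AlgHom.commutes]
  | add p q hp hq => simp only [map_add, hp, hq]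
  | mul_X p i hp =>
    rw [map_mul, map_mul, hp, map_mul, map_mul, MvPolynomial.rename_X, ph_X, ph_X]
    congr 1
    unfold inc
    rw [ah_mo]
    congr 1
    funext j
    refine Fin.cases ?_ (fun k => ?_) j
    · simp [Pi.single_eq_of_ne (Fin.succ_ne_zero i).symm]
    · by_cases h : k = i
      · subst h; simp
      · have : k.succ ≠ i.succ := fun e => h (Fin.succ_injective _ e)
        simp [Pi.single_eq_of_ne h, Pi.single_eq_of_ne this]

theorem t1 : T1 := by
  intro 𝔞 hp hi ⟨d0, F0, hF0, hne⟩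
  set 𝔟 : (d : ℕ) → Ideal (MvPolynomial (Fin d) ℂ) := fun d => (𝔞 d).comap (ph d) with h𝔟
  have hmem : ∀ d P, P ∈ 𝔟 d ↔ ph d P ∈ 𝔞 d := fun d P => Iff.rfl
  have hadd : ∀ (d k : ℕ), ∀ P ∈ 𝔟 d,
      MvPolynomial.rename (fun i : Fin d => i.addNat k) P ∈ 𝔟 (d + k) := by
    intro d k P hP
    induction k with
    | zero =>
      have : (fun i : Fin d => i.addNat 0) = id := by funext i; rfl
      rw [this, MvPolynomial.rename_id_apply]
      exact hP
    | succ k ih =>
      have h1 := hi _ _ ((hmem _ _).1 ih)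
      rw [inc_ph, MvPolynomial.rename_rename] at h1
      exact h1
  have hr : ∀ (d d' : ℕ) (f : Fin d → Fin d'), Function.Injective f →
      ∀ P ∈ 𝔟 d, MvPolynomial.rename f P ∈ 𝔟 d' := by
    intro d d' f hf P hP
    have hle : d ≤ d' := by simpa using Fintype.card_le_of_injective f hf
    obtain ⟨k, rfl⟩ := Nat.exists_eq_add_of_le hle
    obtain ⟨σ, hσ⟩ := Equiv.Perm.exists_extending_pair (fun i : Fin d => i.addNat k) f
      (fun a b h => by
        have := congrArg Fin.val h
        simp only [Fin.val_addNat] at this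
        exact Fin.ext (by omega)) hf
    have h1 := hp _ σ.symm _ ((hmem _ _).1 (hadd d k P hP))
    rw [perm_ph, MvPolynomial.rename_rename] at h1
    have h2 : (σ ∘ fun i : Fin d => i.addNat k) = f := funext hσ
    rw [h2] at h1
    exact h1
  obtain ⟨e0, P0, hP0⟩ := exists_ph F0
  have hP0m : P0 ∈ 𝔟 d0 := by
    rw [hmem, hP0]
    exact Ideal.mul_mem_left _ _ hF0
  have hP0n : P0 ≠ 0 := by
    rintro rfl
    apply hne
    rw [map_zero] at hP0
    rw [← one_mul F0, ← mo_unit (fun i => (e0 i : ℤ)), mul_assoc, ← hP0, mul_zero]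
  obtain ⟨N, hN⟩ := cramer 𝔟 hr hP0m hP0n
  have hN1 : V (fun i : Fin (N + 1) => (MvPolynomial.X i : MvPolynomial (Fin (N + 1)) ℂ)) ∈
      𝔟 (N + 1) := by
    have h1 := hr _ _ Fin.succ (Fin.succ_injective N) _ hN
    rw [map_V] at h1
    have h2 : (fun i : Fin (N + 1) => (MvPolynomial.X i : MvPolynomial (Fin (N + 1)) ℂ)) =
        Fin.cons (MvPolynomial.X 0)
          (fun i : Fin N => MvPolynomial.rename Fin.succ (MvPolynomial.X i)) := by
      funext i
      refine Fin.cases ?_ (fun j => ?_) i <;> simp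
    rw [h2, V_cons]
    exact Ideal.mul_mem_left _ _ h1
  refine ⟨N, fun d F hF => ?_⟩
  obtain ⟨e, P, hP⟩ := exists_ph F
  have hZ : Z (Fin d) N P := by
    intro g
    refine MvPolynomial.funext_set (fun _ => {0}ᶜ) (fun _ => (Set.finite_singleton 0).infinite_compl)
      fun z hz => ?_
    have hz' : ∀ j, z j ≠ 0 := fun j => hz j (Set.mem_univ j)
    have h1 := hF (fun k => Units.mk0 (z (g k)) (hz' _))
      ⟨fun j => Units.mk0 (z j) (hz' j), fun k => ⟨g k, rfl⟩⟩
    have h2 := ev_ph (fun k => Units.mk0 (z (g k)) (hz' _)) P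
    rw [hP, map_mul, h1, mul_zero] at h2
    rw [MvPolynomial.eval_rename, map_zero]
    exact h2.symm
  have hJ : J (Fin d) N ≤ 𝔟 d := by
    unfold J
    rw [Ideal.span_le]
    rintro _ ⟨f, hf, rfl⟩
    have h1 := hr _ _ f hf _ hN1
    rw [map_V] at h1
    simpa using h1
  have h3 := (hmem _ _).1 (hJ (lovasz _ (Fin d) rfl N P hZ))
  rw [hP] at h3
  have h4 := Ideal.mul_mem_left _ (mo (-(fun i => (e i : ℤ)))) h3
  rwa [← mul_assoc, mo_unit, one_mul] at h4

end Pool.Agent.H440Z.Vand
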